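import Pool.Agent.U517.SG.Fwd

set_option autoImplicit false

/-!
# Subgaussian sets of characters of `(ℤ/m)^ℕ` are the finite unions of quasi-independent sets

The compact group is `G = (ℤ/m)^ℕ = (ℕ → ZMod m)` with its Haar probability measure, its dual group is
the group `ℕ →₀ ZMod m` of finitely supported sequences, written additively. The case `m = 4` answers
the question; all moduli `m ≥ 1` are covered.
-/

namespace Pool.Agent.Results.MP_080bf7_an.SubgaussianIffUnion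

open MeasureTheory

/-- The Haar probability measure `m_G` of the compact group `G = (ℤ/m)^ℕ` (the Haar measure that
gives the whole group measure `1`). -/
noncomputable def haar (m : ℕ) [NeZero m] : Measure (ℕ → ZMod m) := Measure.addHaarMeasure ⊤

/-- The character `γ_n(t) = exp(2πi ∑_k t_k n_k / m)` of `G` given by `n`; the sum over the
(finite) support of `n` is formed with the representatives `0, ..., m-1`. -/
noncomputable def character (m : ℕ) [NeZero m] (n : ℕ →₀ ZMod m) (t : ℕ → ZMod m) : ℂ :=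
  Complex.exp (2 * Real.pi * Complex.I *
    ((∑ k ∈ n.support, (t k).val * (n k).val : ℕ) : ℂ) / m)

/-- `‖f‖_{ψ₂} = inf {c > 0 : ∫_G exp(|f|²/c²) dm_G ≤ e}`. -/
noncomputable def psiTwoNorm (m : ℕ) [NeZero m] (f : (ℕ → ZMod m) → ℂ) : ℝ :=
  sInf {c : ℝ | 0 < c ∧
    ∫⁻ t, ENNReal.ofReal (Real.exp (‖f t‖ ^ 2 / c ^ 2)) ∂(haar m) ≤ ENNReal.ofReal (Real.exp 1)}

/-- `Λ` is subgaussian: for some `C`, `‖∑ a_n γ_n‖_{ψ₂} ≤ C (∑ |a_n|²)^{1/2}` for all finitely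
supported families of complex coefficients on `Λ`. -/
def Subgaussian (m : ℕ) [NeZero m] (Λ : Set (ℕ →₀ ZMod m)) : Prop :=
  ∃ C : ℝ, ∀ (A : Finset (ℕ →₀ ZMod m)) (a : (ℕ →₀ ZMod m) → ℂ), (A : Set (ℕ →₀ ZMod m)) ⊆ Λ →
    psiTwoNorm m (fun t => ∑ n ∈ A, a n * character m n t) ≤ C * Real.sqrt (∑ n ∈ A, ‖a n‖ ^ 2)

/-- `Λ` is quasi-independent: a relation `∑_{x ∈ A} ξ_x x = 0` with `A ⊆ Λ` finite and
`ξ_x ∈ {-1, 0, 1}` is trivial. -/
def QuasiIndependent (m : ℕ) [NeZero m] (Λ : Set (ℕ →₀ ZMod m)) : Prop :=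
  ∀ A : Finset (ℕ →₀ ZMod m), (A : Set (ℕ →₀ ZMod m)) ⊆ Λ → ∀ ξ : (ℕ →₀ ZMod m) → ℤ,
    (∀ x ∈ A, ξ x = -1 ∨ ξ x = 0 ∨ ξ x = 1) → ∑ x ∈ A, ξ x • x = 0 → ∀ x ∈ A, ξ x = 0

/-- **Theorem.** For every `m ≥ 1`, in particular for `m = 4`, a set `Λ` of nonzero elements of the
dual group of `(ℤ/m)^ℕ` is subgaussian if and only if it is a finite union of quasi-independent
sets. -/
theorem result (m : ℕ) [NeZero m] (Λ : Set (ℕ →₀ ZMod m)) (h0 : (0 : ℕ →₀ ZMod m) ∉ Λ) :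
    Subgaussian m Λ ↔
      ∃ (k : ℕ) (Q : Fin k → Set (ℕ →₀ ZMod m)),
        (∀ i, QuasiIndependent m (Q i)) ∧ Λ = ⋃ i, Q i := by
  constructor
  · intro h
    exact Pool.Agent.U517.SG.union_of_subgaussian Λ h0 h
  · rintro ⟨k, Q, hQ, hΛ⟩
    exact Pool.Agent.U517.SG.subgaussian_of_union Λ k Q hQ hΛ

end Pool.Agent.Results.MP_080bf7_an.SubgaussianIffUnion
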